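import Mathlib

namespace Pool.Agent.Results.MP_1ca6f4_lc.DeltaOmegaSquared

open Set Filter Topology

universe u

/-- The box topology on `ℕ → X`: generated by the boxes, that is, the products of open sets. -/
@[reducible] def boxTopology (X : Type u) [TopologicalSpace X] : TopologicalSpace (ℕ → X) :=
  TopologicalSpace.generateFrom
    {B | ∃ U : ℕ → Set X, (∀ n, IsOpen (U n)) ∧ B = {x : ℕ → X | ∀ n, x n ∈ U n}}

/-- Equality at all but finitely many coordinates. -/
def modFin (X : Type u) : Setoid (ℕ → X) where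
  r x y := {n | x n ≠ y n}.Finite
  iseqv := by
    refine ⟨fun x => by simp, fun {x y} h => ?_, fun {x y z} h h' => ?_⟩
    · exact h.subset (fun n hn => Ne.symm hn)
    · refine (h.union h').subset ?_
      intro n hn
      by_contra hc
      simp only [mem_union, mem_setOf_eq, not_or, not_not] at hc
      exact hn (hc.1.trans hc.2)

/-- The nabla product: the quotient of the box product by equality mod finite. -/
def Nabla (X : Type u) : Type u := Quotient (modFin X)

instance nablaTopology (X : Type u) [TopologicalSpace X] : TopologicalSpace (Nabla X) :=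
  TopologicalSpace.coinduced (Quotient.mk (modFin X)) (boxTopology X)

/-- Monotone normality. -/
def MonotonicallyNormal (Z : Type u) [TopologicalSpace Z] : Prop :=
  ∃ H : Z → Set Z → Set Z,
    (∀ x U, IsOpen U → x ∈ U → IsOpen (H x U) ∧ x ∈ H x U ∧ H x U ⊆ U) ∧
    (∀ x U y V, IsOpen U → x ∈ U → IsOpen V → y ∈ V →
      (H x U ∩ H y V).Nonempty → x ∈ V ∨ y ∈ U)

/-- `Delta α`: the nabla product of countably many copies of the ordinal `α` is monotonically
normal. Here `Set.Iio α` carries the subspace topology of the order topology of the ordinals. -/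
def Delta (α : Ordinal.{0}) : Prop := MonotonicallyNormal (Nabla (Set.Iio α))

/-- The topology on `Set.Iio α` is its order topology. -/
theorem iio_orderTopology (α : Ordinal.{0}) : OrderTopology (Set.Iio α) := inferInstance

def mk {X : Type u} (x : ℕ → X) : Nabla X := Quotient.mk (modFin X) x

theorem mk_eq {X : Type u} {x y : ℕ → X} (h : {n | x n ≠ y n}.Finite) : mk x = mk y :=
  Quotient.sound h

theorem isOpen_box {X : Type u} [TopologicalSpace X] {S : Set (ℕ → X)} :
    IsOpen[boxTopology X] S ↔ ∀ x ∈ S, ∃ U : ℕ → Set X, (∀ n, IsOpen (U n)) ∧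
      (∀ n, x n ∈ U n) ∧ {y : ℕ → X | ∀ n, y n ∈ U n} ⊆ S := by
  let _ : TopologicalSpace (ℕ → X) := boxTopology X
  have hb : TopologicalSpace.IsTopologicalBasis
      {B | ∃ U : ℕ → Set X, (∀ n, IsOpen (U n)) ∧ B = {x : ℕ → X | ∀ n, x n ∈ U n}} := by
    refine ⟨?_, ?_, rfl⟩
    · rintro B₁ ⟨U, hU, rfl⟩ B₂ ⟨V, hV, rfl⟩ x ⟨hx1, hx2⟩
      refine ⟨{x | ∀ n, x n ∈ U n ∩ V n}, ⟨fun n => U n ∩ V n,
        fun n => (hU n).inter (hV n), rfl⟩, fun n => ⟨hx1 n, hx2 n⟩, ?_⟩
      intro y hy
      exact ⟨fun n => (hy n).1, fun n => (hy n).2⟩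
    · refine eq_univ_of_forall fun x => ?_
      exact ⟨_, ⟨fun _ => univ, fun _ => isOpen_univ, rfl⟩, fun n => mem_univ _⟩
  rw [hb.isOpen_iff]
  constructor
  · intro h x hx
    obtain ⟨B, ⟨U, hU, rfl⟩, hxB, hB⟩ := h x hx
    exact ⟨U, hU, hxB, hB⟩
  · intro h x hx
    obtain ⟨U, hU, hxU, hUS⟩ := h x hx
    exact ⟨_, ⟨U, hU, rfl⟩, hxU, hUS⟩

theorem isOpen_nabla {X : Type u} [TopologicalSpace X] {W : Set (Nabla X)} :
    IsOpen W ↔ ∀ x : ℕ → X, mk x ∈ W → ∃ U : ℕ → Set X, (∀ n, IsOpen (U n)) ∧
      (∀ n, x n ∈ U n) ∧ ∀ y : ℕ → X, (∀ᶠ n in cofinite, y n ∈ U n) → mk y ∈ W := by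
  have h0 : IsOpen W ↔ IsOpen[boxTopology X] (Quotient.mk (modFin X) ⁻¹' W) := by
    rfl
  rw [h0, isOpen_box]
  constructor
  · intro h x hx
    obtain ⟨U, hU, hxU, hUS⟩ := h x hx
    refine ⟨U, hU, hxU, fun y hy => ?_⟩
    classical
    let y' : ℕ → X := fun n => if y n ∈ U n then y n else x n
    have h1 : y' ∈ {y : ℕ → X | ∀ n, y n ∈ U n} := by
      intro n
      by_cases hn : y n ∈ U n
      · simp [y', hn]
      · simp [y', hn, hxU n]
    have h2 : mk y = mk y' := by
      apply mk_eq
      refine Set.Finite.subset (Filter.eventually_cofinite.1 hy) ?_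
      intro n hn hc
      exact hn (by simp [y', hc])
    rw [h2]
    exact hUS h1
  · intro h x hx
    obtain ⟨U, hU, hxU, hUW⟩ := h x hx
    refine ⟨U, hU, hxU, fun y hy => ?_⟩
    exact hUW y (Filter.Eventually.of_forall hy)

/-- Monotone normality passes along inducing maps. -/
theorem MonotonicallyNormal.of_inducing {Z Z' : Type u} [TopologicalSpace Z]
    [TopologicalSpace Z'] {f : Z → Z'} (hf : IsInducing f) (h : MonotonicallyNormal Z') :
    MonotonicallyNormal Z := by
  classical
  obtain ⟨H, h1, h2⟩ := h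
  have hex : ∀ U : Set Z, IsOpen U → ∃ U' : Set Z', IsOpen U' ∧ f ⁻¹' U' = U :=
    fun U hU => hf.isOpen_iff.1 hU
  choose E hEo hEp using hex
  refine ⟨fun x U => if hU : IsOpen U then f ⁻¹' (H (f x) (E U hU)) else ∅, ?_, ?_⟩
  · intro x U hU hx
    have hx' : f x ∈ E U hU := by
      have : x ∈ f ⁻¹' (E U hU) := by rw [hEp U hU]; exact hx
      exact this
    obtain ⟨a, b, c⟩ := h1 (f x) (E U hU) (hEo U hU) hx'
    simp only [hU, dif_pos]
    refine ⟨a.preimage hf.continuous, b, ?_⟩
    intro z hz
    have : z ∈ f ⁻¹' (E U hU) := c hz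
    rwa [hEp U hU] at this
  · intro x U y V hU hx hV hy hne
    have hx' : f x ∈ E U hU := by
      have : x ∈ f ⁻¹' (E U hU) := by rw [hEp U hU]; exact hx
      exact this
    have hy' : f y ∈ E V hV := by
      have : y ∈ f ⁻¹' (E V hV) := by rw [hEp V hV]; exact hy
      exact this
    simp only [hU, hV, dif_pos] at hne
    obtain ⟨z, hz1, hz2⟩ := hne
    rcases h2 (f x) (E U hU) (f y) (E V hV) (hEo U hU) hx' (hEo V hV) hy' ⟨f z, hz1, hz2⟩ with h | h
    · left
      have : x ∈ f ⁻¹' (E V hV) := h
      rwa [hEp V hV] at this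
    · right
      have : y ∈ f ⁻¹' (E U hU) := h
      rwa [hEp U hU] at this

section Functor

variable {X Y : Type u} [TopologicalSpace X] [TopologicalSpace Y]

/-- Interleaving the coordinates of a map `φ : X → Y × Y`. -/
def weave (φ : X → Y × Y) (x : ℕ → X) : ℕ → Y :=
  fun m => if m % 2 = 0 then (φ (x (m / 2))).1 else (φ (x (m / 2))).2

theorem weave_even (φ : X → Y × Y) (x : ℕ → X) (n : ℕ) : weave φ x (2 * n) = (φ (x n)).1 := by
  simp [weave]

theorem weave_odd (φ : X → Y × Y) (x : ℕ → X) (n : ℕ) :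
    weave φ x (2 * n + 1) = (φ (x n)).2 := by
  have h1 : (2 * n + 1) % 2 = 1 := by omega
  have h2 : (2 * n + 1) / 2 = n := by omega
  simp [weave, h1, h2]

theorem tendsto_half : Tendsto (fun m : ℕ => m / 2) cofinite cofinite := by
  rw [Nat.cofinite_eq_atTop]
  exact Nat.tendsto_div_const_atTop (by norm_num)

theorem tendsto_double : Tendsto (fun m : ℕ => 2 * m) cofinite cofinite :=
  Function.Injective.tendsto_cofinite (fun a b h => by simpa using h)

theorem tendsto_double_add : Tendsto (fun m : ℕ => 2 * m + 1) cofinite cofinite :=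
  Function.Injective.tendsto_cofinite (fun a b h => by simpa using h)

/-- The induced map of nabla products. -/
def nablaMap (φ : X → Y × Y) : Nabla X → Nabla Y :=
  Quotient.lift (fun x => mk (weave φ x)) (by
    intro a b h
    apply mk_eq
    have h' : ∀ᶠ n in cofinite, a n = b n := h
    have h2 : ∀ᶠ m in cofinite, a (m / 2) = b (m / 2) := tendsto_half.eventually h'
    refine (Filter.eventually_cofinite.1 h2).subset ?_
    intro m hm hc
    apply hm
    simp only [weave, hc])

theorem nablaMap_mk (φ : X → Y × Y) (x : ℕ → X) : nablaMap φ (mk x) = mk (weave φ x) := rfl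

theorem exists_rep (z : Nabla X) : ∃ x : ℕ → X, mk x = z := Quotient.exists_rep z

theorem nablaMap_inducing {φ : X → Y × Y} (hφ : IsInducing φ) : IsInducing (nablaMap φ) := by
  refine ⟨?_⟩
  ext U
  rw [isOpen_induced_iff]
  constructor
  · intro hU
    -- the family of admissible neighbourhoods
    let O : (ℕ → Set Y) → Set (Nabla Y) := fun V =>
      {z | ∃ y : ℕ → Y, mk y = z ∧ ∀ᶠ m in cofinite, y m ∈ V m}
    have hmem : ∀ (V : ℕ → Set Y) (y : ℕ → Y), mk y ∈ O V → ∀ᶠ m in cofinite, y m ∈ V m := by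
      rintro V y ⟨y', hy', h⟩
      have h1 : {n | y' n ≠ y n}.Finite := Quotient.exact hy'
      have h2 : ∀ᶠ m in cofinite, y' m = y m := h1
      filter_upwards [h, h2] with m a b
      rw [← b]; exact a
    have hO : ∀ V : ℕ → Set Y, (∀ m, IsOpen (V m)) → IsOpen (O V) := by
      intro V hV
      rw [isOpen_nabla]
      intro y hy
      have h := hmem V y hy
      classical
      refine ⟨fun m => if y m ∈ V m then V m else univ, ?_, ?_, ?_⟩
      · intro m
        by_cases hm : y m ∈ V m
        · simp [hm, hV m]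
        · simp [hm]
      · intro m
        by_cases hm : y m ∈ V m
        · simp [hm]
        · simp [hm]
      · intro y' hy'
        refine ⟨y', rfl, ?_⟩
        filter_upwards [h, hy'] with m a b
        simpa [a] using b
    let W : Set (Nabla Y) := ⋃ V ∈ {V : ℕ → Set Y | (∀ m, IsOpen (V m)) ∧
      ∀ y : ℕ → X, (∀ᶠ n in cofinite, φ (y n) ∈ V (2 * n) ×ˢ V (2 * n + 1)) → mk y ∈ U}, O V
    refine ⟨W, ?_, ?_⟩
    · exact isOpen_biUnion fun V hV => hO V hV.1
    · ext z
      obtain ⟨x, rfl⟩ := exists_rep z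
      simp only [mem_preimage, nablaMap_mk, W, mem_iUnion]
      constructor
      · rintro ⟨V, ⟨hV, hVU⟩, hx⟩
        apply hVU
        have h := hmem V _ hx
        have h1 := tendsto_double.eventually h
        have h2 := tendsto_double_add.eventually h
        filter_upwards [h1, h2] with n a b
        rw [weave_even] at a
        rw [weave_odd] at b
        exact ⟨a, b⟩
      · intro hx
        obtain ⟨T, hT, hxT, hTU⟩ := isOpen_nabla.1 hU x hx
        have hex : ∀ n, ∃ A B : Set Y, IsOpen A ∧ IsOpen B ∧ φ (x n) ∈ A ×ˢ B ∧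
            ∀ y : X, φ y ∈ A ×ˢ B → y ∈ T n := by
          intro n
          obtain ⟨S, hS, hST⟩ := hφ.isOpen_iff.1 (hT n)
          have hxS : φ (x n) ∈ S := by
            have : x n ∈ φ ⁻¹' S := by rw [hST]; exact hxT n
            exact this
          obtain ⟨A, B, hA, hB, ha, hb, hAB⟩ := isOpen_prod_iff.1 hS _ _ hxS
          refine ⟨A, B, hA, hB, ⟨ha, hb⟩, fun y hy => ?_⟩
          rw [← hST]
          exact hAB hy
        choose A B hA hB hmem' hAB using hex
        let V : ℕ → Set Y := fun m => if m % 2 = 0 then A (m / 2) else B (m / 2)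
        have hVe : ∀ n, V (2 * n) = A n := fun n => by simp [V]
        have hVo : ∀ n, V (2 * n + 1) = B n := fun n => by
          have h1 : (2 * n + 1) % 2 = 1 := by omega
          have h2 : (2 * n + 1) / 2 = n := by omega
          simp [V, h1, h2]
        refine ⟨V, ⟨?_, ?_⟩, ⟨weave φ x, rfl, ?_⟩⟩
        · intro m
          by_cases hm : m % 2 = 0
          · simp only [V, hm, if_true]; exact hA _
          · simp only [V, hm, if_false]; exact hB _
        · intro y hy
          apply hTU
          filter_upwards [hy] with n hn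
          rw [hVe, hVo] at hn
          exact hAB n _ hn
        · refine Filter.Eventually.of_forall fun m => ?_
          by_cases hm : m % 2 = 0
          · simp only [V, weave, hm, if_true]; exact (hmem' _).1
          · simp only [V, weave, hm, if_false]; exact (hmem' _).2
  · rintro ⟨W, hW, rfl⟩
    rw [isOpen_nabla]
    intro x hx
    obtain ⟨V, hV, hxV, hVW⟩ := isOpen_nabla.1 hW (weave φ x) hx
    refine ⟨fun n => φ ⁻¹' (V (2 * n) ×ˢ V (2 * n + 1)), ?_, ?_, ?_⟩
    · intro n
      exact ((hV _).prod (hV _)).preimage hφ.continuous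
    · intro n
      have h1 := hxV (2 * n)
      have h2 := hxV (2 * n + 1)
      rw [weave_even] at h1
      rw [weave_odd] at h2
      exact ⟨h1, h2⟩
    · intro y hy
      show nablaMap φ (mk y) ∈ W
      rw [nablaMap_mk]
      apply hVW
      have h2 := tendsto_half.eventually hy
      filter_upwards [h2] with m hm
      by_cases hme : m % 2 = 0
      · have : 2 * (m / 2) = m := by omega
        have h3 := hm.1
        rw [this] at h3
        simpa only [weave, hme, if_true] using h3
      · have : 2 * (m / 2) + 1 = m := by omega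
        have h3 := hm.2
        rw [this] at h3
        simpa only [weave, hme, if_false] using h3

end Functor

open Ordinal in
/-- A map into `ω + 1` is continuous when its sublevel sets at the finite levels are clopen. -/
theorem continuous_of_isClopen {X : Type u} [TopologicalSpace X]
    (f : X → Set.Iio (ω + 1 : Ordinal.{0}))
    (hf : ∀ n : ℕ, IsClopen {x | (f x : Ordinal.{0}) ≤ n}) : Continuous f := by
  rw [OrderTopology.continuous_iff]
  intro a
  have hle : ∀ x, (f x : Ordinal.{0}) ≤ ω := fun x => Order.lt_add_one_iff.1 (f x).2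
  have ha : (a : Ordinal.{0}) ≤ ω := Order.lt_add_one_iff.1 a.2
  rcases ha.lt_or_eq with ha | ha
  · obtain ⟨n, hn⟩ := lt_omega0.1 ha
    constructor
    · have h : f ⁻¹' Ioi a = {x | (f x : Ordinal.{0}) ≤ n}ᶜ := by
        ext x
        simp only [mem_preimage, mem_Ioi, mem_compl_iff, mem_setOf_eq, not_le]
        rw [← Subtype.coe_lt_coe, hn]
      rw [h]
      exact (hf n).compl.isOpen
    · rcases Nat.eq_zero_or_pos n with h0 | h0
      · have h : f ⁻¹' Iio a = ∅ := by
          ext x
          simp only [mem_preimage, mem_Iio, mem_empty_iff_false, iff_false, not_lt]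
          rw [← Subtype.coe_le_coe, hn, h0]
          simp
        rw [h]
        exact isOpen_empty
      · obtain ⟨m, rfl⟩ : ∃ m, n = m + 1 := ⟨n - 1, by omega⟩
        have h : f ⁻¹' Iio a = {x | (f x : Ordinal.{0}) ≤ m} := by
          ext x
          simp only [mem_preimage, mem_Iio, mem_setOf_eq]
          rw [← Subtype.coe_lt_coe, hn]
          push_cast
          exact Order.lt_add_one_iff
        rw [h]
        exact (hf m).isOpen
  · constructor
    · have h : f ⁻¹' Ioi a = ∅ := by
        ext x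
        simp only [mem_preimage, mem_Ioi, mem_empty_iff_false, iff_false, not_lt]
        rw [← Subtype.coe_le_coe, ha]
        exact hle x
      rw [h]
      exact isOpen_empty
    · have h : f ⁻¹' Iio a = ⋃ n : ℕ, {x | (f x : Ordinal.{0}) ≤ n} := by
        ext x
        simp only [mem_preimage, mem_Iio, mem_iUnion, mem_setOf_eq]
        rw [← Subtype.coe_lt_coe, ha]
        constructor
        · intro hx
          obtain ⟨n, hn⟩ := lt_omega0.1 hx
          exact ⟨n, hn.le⟩
        · rintro ⟨n, hn⟩
          exact hn.trans_lt (natCast_lt_omega0 n)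
      rw [h]
      exact isOpen_iUnion fun n => (hf n).isOpen

open Ordinal in
theorem exists_embedding : ∃ φ : Set.Iio (ω * ω + 1 : Ordinal.{0}) →
    Set.Iio (ω + 1 : Ordinal.{0}) × Set.Iio (ω + 1 : Ordinal.{0}), IsInducing φ := by
  classical
  have hX : ∀ x : Set.Iio (ω * ω + 1 : Ordinal.{0}), (x : Ordinal.{0}) ≤ ω * ω :=
    fun x => Order.lt_add_one_iff.1 x.2
  have hcomp : CompactSpace (Set.Iio (ω * ω + 1 : Ordinal.{0})) := by
    rw [← isCompact_iff_compactSpace]
    have h : Set.Iio (ω * ω + 1 : Ordinal.{0}) = Set.Icc 0 (ω * ω) := by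
      ext x
      simp [Order.lt_add_one_iff]
    rw [h]
    exact isCompact_Icc
  have hcount : Countable (Set.Iio (ω * ω + 1 : Ordinal.{0})) := by
    rw [← Cardinal.mk_le_aleph0_iff, Cardinal.mk_Iio_ordinal]
    simp
  obtain ⟨e, he⟩ := exists_injective_nat (Set.Iio (ω * ω + 1 : Ordinal.{0}))
  -- the first coordinate
  let q0 : Set.Iio (ω * ω + 1 : Ordinal.{0}) → Ordinal.{0} :=
    fun x => sInf {k | (x : Ordinal.{0}) ≤ ω * k}
  have hq0 : ∀ x : Set.Iio (ω * ω + 1 : Ordinal.{0}), (x : Ordinal.{0}) ≤ ω * q0 x := fun x =>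
    csInf_mem (s := {k | (x : Ordinal.{0}) ≤ ω * k}) ⟨ω, hX x⟩
  have hq1 : ∀ (x : Set.Iio (ω * ω + 1 : Ordinal.{0})) (k : Ordinal.{0}), (x : Ordinal.{0}) ≤ ω * k → q0 x ≤ k := fun x k hk =>
    csInf_le' hk
  have hq2 : ∀ (x : Set.Iio (ω * ω + 1 : Ordinal.{0})) (k : Ordinal.{0}), q0 x ≤ k ↔ (x : Ordinal.{0}) ≤ ω * k := by
    intro x k
    refine ⟨fun h => (hq0 x).trans ?_, hq1 x k⟩
    exact (isNormal_mul_right omega0_pos).strictMono.monotone h
  let q : Set.Iio (ω * ω + 1 : Ordinal.{0}) → Set.Iio (ω + 1 : Ordinal.{0}) :=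
    fun x => ⟨q0 x, Order.lt_add_one_iff.2 (hq1 x ω (hX x))⟩
  have hqc : Continuous q := by
    apply continuous_of_isClopen
    intro n
    have h : {x | (q x : Ordinal.{0}) ≤ n} =
        Subtype.val ⁻¹' (Set.Iic (ω * (n : Ordinal.{0}))) := by
      ext x
      exact hq2 x n
    rw [h]
    have h2 : IsClopen (Set.Iic (ω * (n : Ordinal.{0}))) := by
      refine ⟨isClosed_Iic, ?_⟩
      have h3 : Set.Iic (ω * (n : Ordinal.{0})) = Set.Iio (ω * (n : Ordinal.{0}) + 1) := by
        ext x
        simp [Order.lt_add_one_iff]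
      rw [h3]
      exact isOpen_Iio
    exact h2.preimage continuous_subtype_val
  -- the second coordinate
  let c : Set.Iio (ω * ω + 1 : Ordinal.{0}) → Set.Iio (ω + 1 : Ordinal.{0}) :=
    fun x => if Order.IsSuccLimit (x : Ordinal.{0}) then ⟨ω, show ω < ω + 1 from Order.lt_add_one_iff.2 le_rfl⟩
      else ⟨(e x : Ordinal.{0}), show (e x : Ordinal.{0}) < ω + 1 from
        (natCast_lt_omega0 (e x)).trans (Order.lt_add_one_iff.2 le_rfl)⟩
  have hc1 : ∀ x : Set.Iio (ω * ω + 1 : Ordinal.{0}), Order.IsSuccLimit (x : Ordinal.{0}) → (c x : Ordinal.{0}) = ω := by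
    intro x hx
    simp [c, hx]
  have hc2 : ∀ x : Set.Iio (ω * ω + 1 : Ordinal.{0}), ¬ Order.IsSuccLimit (x : Ordinal.{0}) → (c x : Ordinal.{0}) = e x := by
    intro x hx
    simp [c, hx]
  have hcc : Continuous c := by
    apply continuous_of_isClopen
    intro n
    have h : {x | (c x : Ordinal.{0}) ≤ n} = ⋃ m ∈ Finset.range (n + 1),
        {x | ¬ Order.IsSuccLimit ((x : Set.Iio (ω * ω + 1 : Ordinal.{0})) : Ordinal.{0}) ∧
          e x = m} := by
      ext x
      simp only [mem_setOf_eq, mem_iUnion, Finset.mem_range, exists_prop]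
      constructor
      · intro hx
        have hnl : ¬ Order.IsSuccLimit (x : Ordinal.{0}) := by
          intro hl
          rw [hc1 x hl] at hx
          exact absurd hx (not_le.2 (natCast_lt_omega0 n))
        rw [hc2 x hnl] at hx
        have : e x ≤ n := by exact_mod_cast hx
        exact ⟨e x, by omega, hnl, rfl⟩
      · rintro ⟨m, hm, hnl, rfl⟩
        rw [hc2 x hnl]
        have : e x ≤ n := by omega
        exact_mod_cast this
    rw [h]
    apply isClopen_biUnion_finset
    intro m _
    by_cases hex : ∃ x : Set.Iio (ω * ω + 1 : Ordinal.{0}),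
        ¬ Order.IsSuccLimit (x : Ordinal.{0}) ∧ e x = m
    · obtain ⟨x0, hx0, hx0m⟩ := hex
      have h1 : {x | ¬ Order.IsSuccLimit ((x : Set.Iio (ω * ω + 1 : Ordinal.{0})) : Ordinal.{0})
          ∧ e x = m} = {x0} := by
        ext x
        simp only [mem_setOf_eq, mem_singleton_iff]
        constructor
        · rintro ⟨_, hx⟩
          exact he (hx.trans hx0m.symm)
        · rintro rfl
          exact ⟨hx0, hx0m⟩
      rw [h1]
      refine ⟨isClosed_singleton, ?_⟩
      have h2 : ({x0} : Set (Set.Iio (ω * ω + 1 : Ordinal.{0}))) =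
          Subtype.val ⁻¹' {(x0 : Ordinal.{0})} := by
        ext x
        simp [Subtype.ext_iff]
      rw [h2]
      exact (SuccOrder.isOpen_singleton_iff.2 hx0).preimage continuous_subtype_val
    · have h1 : {x | ¬ Order.IsSuccLimit ((x : Set.Iio (ω * ω + 1 : Ordinal.{0})) : Ordinal.{0})
          ∧ e x = m} = ∅ := by
        ext x
        simp only [mem_setOf_eq, mem_empty_iff_false, iff_false]
        exact fun hx => hex ⟨x, hx⟩
      rw [h1]
      exact isClopen_empty
  have hinj : Function.Injective (fun x => (q x, c x)) := by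
    intro x y hxy
    simp only [Prod.mk.injEq] at hxy
    obtain ⟨h1, h2⟩ := hxy
    have h1' : q0 x = q0 y := congrArg Subtype.val h1
    have h2' : (c x : Ordinal.{0}) = c y := congrArg Subtype.val h2
    have hlim : ∀ z : Set.Iio (ω * ω + 1 : Ordinal.{0}), Order.IsSuccLimit (z : Ordinal.{0}) →
        (z : Ordinal.{0}) = ω * q0 z := by
      intro z hz
      obtain ⟨a, ha⟩ := isSuccPrelimit_iff_omega0_dvd.1 hz.isSuccPrelimit
      have h3 : q0 z ≤ a := hq1 z a ha.le
      have h4 : a ≤ q0 z := by
        have h5 := hq0 z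
        rw [ha] at h5
        exact (isNormal_mul_right omega0_pos).strictMono.le_iff_le.1 h5
      rw [le_antisymm h3 h4, ← ha]
    by_cases hx : Order.IsSuccLimit (x : Ordinal.{0})
    · by_cases hy : Order.IsSuccLimit (y : Ordinal.{0})
      · apply Subtype.ext
        rw [hlim x hx, hlim y hy, h1']
      · rw [hc1 x hx, hc2 y hy] at h2'
        exact absurd h2'.symm (natCast_lt_omega0 (e y)).ne
    · by_cases hy : Order.IsSuccLimit (y : Ordinal.{0})
      · rw [hc2 x hx, hc1 y hy] at h2'
        exact absurd h2' (natCast_lt_omega0 (e x)).ne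
      · rw [hc2 x hx, hc2 y hy] at h2'
        exact he (by exact_mod_cast h2')
  exact ⟨fun x => (q x, c x), ((hqc.prodMk hcc).isClosedEmbedding hinj).isInducing⟩

/-- **Theorem.** If the nabla product of countably many copies of `ω + 1` is monotonically normal,
then so is the nabla product of countably many copies of `ω · ω + 1`. -/
theorem result :
    Delta (Ordinal.omega0 + 1) → Delta (Ordinal.omega0 * Ordinal.omega0 + 1) := by
  intro h
  obtain ⟨φ, hφ⟩ := exists_embedding
  exact MonotonicallyNormal.of_inducing (nablaMap_inducing hφ) h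

end Pool.Agent.Results.MP_1ca6f4_lc.DeltaOmegaSquared
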